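import Pool.Agent.W232.FC.Fin2
import Pool.Agent.H353R2.Z2

/-! The number of the divisors of the product of the terms of a solution of
`a x ^ l + b y ^ m = c z ^ n` with a large exponent and coefficients of small radical. -/

set_option autoImplicit false

open Finset

namespace Pool.Agent.R437.FC

open Pool.Agent.W232.FC (rad SolC SolC_finite sparseC base_of_exp)

/-- `d` divides the product of the terms of an equation `a x ^ l + b y ^ m = c z ^ n` between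
positive integers, `l, m, n ≥ 2`, such that one of the exponents is at least `R`, the radicals of
the coefficients are at most `d ^ (1 / R)` and `c z ^ n ≤ d ^ A` -/
def Hit (R : ℕ) (A : ℝ) (d : ℕ) : Prop :=
  ∃ a b c x y z l m n : ℕ, (0 < a ∧ 0 < b ∧ 0 < c ∧ 0 < x ∧ 0 < y ∧ 0 < z) ∧
    (2 ≤ l ∧ 2 ≤ m ∧ 2 ≤ n) ∧ (R ≤ l ∨ R ≤ m ∨ R ≤ n) ∧
    ((rad a : ℝ) ≤ (d : ℝ) ^ (1 / (R : ℝ)) ∧ (rad b : ℝ) ≤ (d : ℝ) ^ (1 / (R : ℝ)) ∧
      (rad c : ℝ) ≤ (d : ℝ) ^ (1 / (R : ℝ))) ∧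
    a * x ^ l + b * y ^ m = c * z ^ n ∧ d ∣ (a * x ^ l) * (b * y ^ m) * (c * z ^ n) ∧
    ((c * z ^ n : ℕ) : ℝ) ≤ (d : ℝ) ^ A

lemma Hit.pos {R : ℕ} {A : ℝ} {d : ℕ} (h : Hit R A d) : 0 < d := by
  obtain ⟨a, b, c, x, y, z, l, m, n, ⟨ha, hb, hc, hx, hy, hz⟩, -, -, -, -, hd, -⟩ := h
  exact Nat.pos_of_dvd_of_pos hd (by positivity)

lemma Hit.mono {R : ℕ} {A A' : ℝ} {d : ℕ} (hA : A ≤ A') (h : Hit R A d) : Hit R A' d := by
  have hd : (1 : ℝ) ≤ d := by exact_mod_cast h.pos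
  obtain ⟨a, b, c, x, y, z, l, m, n, h0, h1, h2, h3, h4, h5, h6⟩ := h
  exact ⟨a, b, c, x, y, z, l, m, n, h0, h1, h2, h3, h4, h5,
    h6.trans (Real.rpow_le_rpow_of_exponent_le hd hA)⟩

/-- the count of the solutions with a constant, for all `Y` -/
theorem count_sol (ε : ℝ) (hε : 0 < ε) : ∃ δ : ℝ, 0 < δ ∧ ∃ C : ℝ, 0 < C ∧ ∀ Y : ℕ, 1 ≤ Y →
    ((SolC Y ((Y : ℝ) ^ δ)).ncard : ℝ) ≤ C * (Y : ℝ) ^ ε := by
  obtain ⟨δ, hδ, X₀, h⟩ := sparseC ε hε
  refine ⟨δ, hδ, 1 + ∑ Y ∈ range X₀, ((SolC Y ((Y : ℝ) ^ δ)).ncard : ℝ), ?_, fun Y hY => ?_⟩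
  · have : (0 : ℝ) ≤ ∑ Y ∈ range X₀, ((SolC Y ((Y : ℝ) ^ δ)).ncard : ℝ) :=
      Finset.sum_nonneg fun _ _ => Nat.cast_nonneg _
    linarith
  · have hY1 : (1 : ℝ) ≤ Y := by exact_mod_cast hY
    have h0 : (0 : ℝ) ≤ ∑ Y ∈ range X₀, ((SolC Y ((Y : ℝ) ^ δ)).ncard : ℝ) :=
      Finset.sum_nonneg fun _ _ => Nat.cast_nonneg _
    have hp : (1 : ℝ) ≤ (Y : ℝ) ^ ε := Real.one_le_rpow hY1 hε.le
    rcases Nat.lt_or_ge Y X₀ with hlt | hge
    · have h1 : ((SolC Y ((Y : ℝ) ^ δ)).ncard : ℝ) ≤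
          ∑ Y ∈ range X₀, ((SolC Y ((Y : ℝ) ^ δ)).ncard : ℝ) :=
        Finset.single_le_sum (f := fun Y : ℕ => ((SolC Y ((Y : ℝ) ^ δ)).ncard : ℝ))
          (fun _ _ => Nat.cast_nonneg _) (mem_range.mpr hlt)
      nlinarith
    · have h1 := h Y hge
      nlinarith

theorem fin_le (P : ℕ → Prop) (X : ℝ) : {d : ℕ | P d ∧ (d : ℝ) ≤ X}.Finite :=
  (Set.finite_Iic ⌊X⌋₊).subset fun _ hd => Nat.le_floor hd.2

theorem count (A s : ℝ) (hA : 0 < A) (hs : 0 < s) :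
    ∃ R : ℕ, 1 ≤ R ∧ ∃ C : ℝ, 0 ≤ C ∧ ∀ X : ℝ, 1 ≤ X →
      (({d : ℕ | Hit R A d ∧ (d : ℝ) ≤ X}.ncard : ℕ) : ℝ) ≤ C * X ^ s := by
  classical
  obtain ⟨δ, hδ, C2, hC2, hsol⟩ := count_sol (s / (2 * A)) (by positivity)
  obtain ⟨C1, hC1, hdiv⟩ := H353.divisor_bound_real (s / (6 * A)) (by positivity)
  obtain ⟨R, hR⟩ := exists_nat_ge (max 1 (max (1 / δ) (1 / (A * δ))))
  have hR1 : (1 : ℝ) ≤ R := (le_max_left _ _).trans hR
  have hRδ : 1 / δ ≤ R := ((le_max_left _ _).trans (le_max_right _ _)).trans hR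
  have hRA : 1 / (A * δ) ≤ R := ((le_max_right _ _).trans (le_max_right _ _)).trans hR
  have hR0 : (0 : ℝ) < R := by linarith
  have hRnat : 1 ≤ R := by exact_mod_cast hR1
  refine ⟨R, hRnat, C2 * C1 * 2 ^ (s / A), by positivity, fun X hX => ?_⟩
  have hX0 : (0 : ℝ) < X := by linarith
  have hXA : 1 ≤ X ^ A := Real.one_le_rpow hX hA.le
  set Y : ℕ := ⌈X ^ A⌉₊ with hY
  have hYX : X ^ A ≤ Y := Nat.le_ceil _
  have hY1 : 1 ≤ Y := by exact_mod_cast hXA.trans hYX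
  have hY1R : (1 : ℝ) ≤ Y := by exact_mod_cast hY1
  have hY0 : (0 : ℝ) ≤ Y := Nat.cast_nonneg _
  have hY2 : (Y : ℝ) ≤ 2 * X ^ A := by
    have := Nat.ceil_lt_add_one (show 0 ≤ X ^ A by positivity)
    linarith
  have h1 := hsol Y hY1
  have hfin := SolC_finite Y ((Y : ℝ) ^ δ)
  -- nonzero terms
  set F : Finset (ℤ × ℤ × ℤ) := hfin.toFinset.filter
    (fun t => t.1 ≠ 0 ∧ t.2.1 ≠ 0 ∧ t.2.2 ≠ 0) with hF
  have hFc : (F.card : ℝ) ≤ C2 * (Y : ℝ) ^ (s / (2 * A)) := by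
    refine le_trans ?_ h1
    rw [Set.ncard_eq_toFinset_card _ hfin]
    exact_mod_cast Finset.card_filter_le _ _
  have hsmall : ∀ d k : ℕ, (d : ℝ) ≤ X → (rad k : ℝ) ≤ (d : ℝ) ^ (1 / (R : ℝ)) →
      (rad k : ℝ) ≤ (Y : ℝ) ^ δ := by
    intro d k hd hk
    refine hk.trans ?_
    calc (d : ℝ) ^ (1 / (R : ℝ)) ≤ X ^ (1 / (R : ℝ)) :=
          Real.rpow_le_rpow (Nat.cast_nonneg _) hd (by positivity)
      _ ≤ X ^ (A * δ) := by
          apply Real.rpow_le_rpow_of_exponent_le hX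
          rw [div_le_iff₀ hR0]
          rw [div_le_iff₀ (by positivity)] at hRA
          linarith
      _ = (X ^ A) ^ δ := Real.rpow_mul hX0.le _ _
      _ ≤ (Y : ℝ) ^ δ := Real.rpow_le_rpow (by positivity) hYX hδ.le
  have hsub : {d : ℕ | Hit R A d ∧ (d : ℝ) ≤ X} ⊆
      ((F.biUnion fun t => (t.1 * t.2.1 * t.2.2).natAbs.divisors : Finset ℕ) : Set ℕ) := by
    rintro d ⟨⟨a, b, c, x, y, z, l, m, n, ⟨ha, hb, hc, hx, hy, hz⟩, ⟨hl, hm, hn⟩, hRe,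
      ⟨ra, rb, rc⟩, heq, hdvd, hht⟩, hdX⟩
    have hC : c * z ^ n ≤ Y := by
      have h2 : ((c * z ^ n : ℕ) : ℝ) ≤ Y :=
        (hht.trans (Real.rpow_le_rpow (Nat.cast_nonneg _) hdX hA.le)).trans hYX
      exact_mod_cast h2
    have hpa : 0 < a * x ^ l := by positivity
    have hpb : 0 < b * y ^ m := by positivity
    have hpc : 0 < c * z ^ n := by positivity
    rw [Finset.mem_coe, Finset.mem_biUnion]
    refine ⟨(((a * x ^ l : ℕ) : ℤ), ((b * y ^ m : ℕ) : ℤ), ((c * z ^ n : ℕ) : ℤ)), ?_, ?_⟩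
    · rw [hF, Finset.mem_filter, hfin.mem_toFinset]
      refine ⟨⟨by simp only; exact_mod_cast heq, by simp only [Int.natAbs_natCast]; omega,
        by simp only [Int.natAbs_natCast]; omega, by simp only [Int.natAbs_natCast]; omega,
        a, b, c, x, y, z, l, m, n, by exact_mod_cast ha.ne', by exact_mod_cast hb.ne',
        by exact_mod_cast hc.ne', by exact_mod_cast hx.ne', by exact_mod_cast hy.ne',
        by exact_mod_cast hz.ne', hl, hm, hn, by push_cast; rfl,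
        by rw [Int.natAbs_natCast]; exact hsmall d a hdX ra,
        by rw [Int.natAbs_natCast]; exact hsmall d b hdX rb,
        by rw [Int.natAbs_natCast]; exact hsmall d c hdX rc, ?_⟩,
        by simp only; exact_mod_cast hpa.ne', by simp only; exact_mod_cast hpb.ne',
        by simp only; exact_mod_cast hpc.ne'⟩
      simp only [Int.natAbs_natCast]
      rcases hRe with h | h | h
      · left
        refine base_of_exp hRδ hδ h hx ?_
        calc x ^ l ≤ a * x ^ l := Nat.le_mul_of_pos_left _ ha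
          _ ≤ Y := by omega
      · right; left
        refine base_of_exp hRδ hδ h hy ?_
        calc y ^ m ≤ b * y ^ m := Nat.le_mul_of_pos_left _ hb
          _ ≤ Y := by omega
      · right; right
        refine base_of_exp hRδ hδ h hz ?_
        calc z ^ n ≤ c * z ^ n := Nat.le_mul_of_pos_left _ hc
          _ ≤ Y := by omega
    · rw [Nat.mem_divisors]
      have e : ((((a * x ^ l : ℕ) : ℤ)) * ((b * y ^ m : ℕ) : ℤ) * ((c * z ^ n : ℕ) : ℤ)).natAbs =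
          (a * x ^ l) * (b * y ^ m) * (c * z ^ n) := by
        rw [Int.natAbs_mul, Int.natAbs_mul, Int.natAbs_natCast, Int.natAbs_natCast,
          Int.natAbs_natCast]
      simp only
      rw [e]
      exact ⟨hdvd, by positivity⟩
  have h2 : ({d : ℕ | Hit R A d ∧ (d : ℝ) ≤ X}.ncard : ℕ) ≤
      ∑ t ∈ F, (t.1 * t.2.1 * t.2.2).natAbs.divisors.card := by
    refine (Set.ncard_le_ncard hsub (Finset.finite_toSet _)).trans ?_
    rw [Set.ncard_coe_finset]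
    exact Finset.card_biUnion_le
  have h3 : ∀ t ∈ F, (((t.1 * t.2.1 * t.2.2).natAbs.divisors.card : ℕ) : ℝ) ≤
      C1 * (Y : ℝ) ^ (s / (2 * A)) := by
    intro t ht
    rw [hF, Finset.mem_filter, hfin.mem_toFinset] at ht
    obtain ⟨⟨-, t1, t2, t3, -⟩, n1, n2, n3⟩ := ht
    have hne : (t.1 * t.2.1 * t.2.2).natAbs ≠ 0 :=
      Int.natAbs_ne_zero.2 (mul_ne_zero (mul_ne_zero n1 n2) n3)
    refine (hdiv _ hne).trans (mul_le_mul_of_nonneg_left ?_ hC1.le)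
    have e1 : (((t.1 * t.2.1 * t.2.2).natAbs : ℕ) : ℝ) ≤ (Y : ℝ) ^ (3 : ℝ) := by
      have : (t.1 * t.2.1 * t.2.2).natAbs ≤ Y * Y * Y := by
        rw [Int.natAbs_mul, Int.natAbs_mul]
        gcongr
      calc (((t.1 * t.2.1 * t.2.2).natAbs : ℕ) : ℝ) ≤ ((Y * Y * Y : ℕ) : ℝ) := by
            exact_mod_cast this
        _ = (Y : ℝ) ^ (3 : ℝ) := by
          push_cast
          rw [show (3 : ℝ) = ((3 : ℕ) : ℝ) by norm_num, Real.rpow_natCast]
          ring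
    calc (((t.1 * t.2.1 * t.2.2).natAbs : ℕ) : ℝ) ^ (s / (6 * A)) ≤
          ((Y : ℝ) ^ (3 : ℝ)) ^ (s / (6 * A)) :=
          Real.rpow_le_rpow (Nat.cast_nonneg _) e1 (by positivity)
      _ = (Y : ℝ) ^ (s / (2 * A)) := by
          rw [← Real.rpow_mul hY0]
          congr 1
          field_simp
          ring
  have hYpos : (0 : ℝ) < Y := by linarith
  calc (({d : ℕ | Hit R A d ∧ (d : ℝ) ≤ X}.ncard : ℕ) : ℝ)
      ≤ ((∑ t ∈ F, (t.1 * t.2.1 * t.2.2).natAbs.divisors.card : ℕ) : ℝ) := by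
        exact_mod_cast h2
    _ = ∑ t ∈ F, (((t.1 * t.2.1 * t.2.2).natAbs.divisors.card : ℕ) : ℝ) := by push_cast; rfl
    _ ≤ ∑ t ∈ F, C1 * (Y : ℝ) ^ (s / (2 * A)) := Finset.sum_le_sum h3
    _ = (F.card : ℝ) * (C1 * (Y : ℝ) ^ (s / (2 * A))) := by
        rw [Finset.sum_const, nsmul_eq_mul]
    _ ≤ (C2 * (Y : ℝ) ^ (s / (2 * A))) * (C1 * (Y : ℝ) ^ (s / (2 * A))) :=
        mul_le_mul_of_nonneg_right hFc (by positivity)
    _ = C2 * C1 * ((Y : ℝ) ^ (s / (2 * A)) * (Y : ℝ) ^ (s / (2 * A))) := by ring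
    _ = C2 * C1 * (Y : ℝ) ^ (s / A) := by
        rw [← Real.rpow_add hYpos]
        congr 2
        field_simp
        ring
    _ ≤ C2 * C1 * (2 * X ^ A) ^ (s / A) := by
        gcongr
    _ = C2 * C1 * 2 ^ (s / A) * X ^ s := by
        rw [Real.mul_rpow (by norm_num) (by positivity), ← Real.rpow_mul hX0.le]
        rw [show A * (s / A) = s by field_simp]
        ring

end Pool.Agent.R437.FC
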